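import Pool.Agent.Run7.h161.AK.Main

/-!
# Extensions by Artin groups of arbitrary rank and the Farrell–Jones conjecture

`C` is any class of groups with the closure properties `ClosedE C`, all of which are known for the
class of the groups that satisfy the Farrell–Jones conjecture for `A`-theory with coefficients and
finite wreath products. Let `L` be a set of finite labels such that `C` contains the Artin groups of
finite rank with all labels in `L`. For `L = {5, 6, 7, …}` this is known, as these groups are CAT(0)
(Haettel); for the set `L` of all finite labels it is the conjecture for Artin groups of
finite rank without the label infinity.

Let `N` be a normal subgroup of a group `G` which is an Artin group with the matrix `M` over an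
arbitrary, possibly infinite, index set `B` and labels in `L` or infinity. Let `Q` be a subgroup of
`G` with `G = N Q` which acts on `B` by automorphisms of `M`, such that conjugation by `m ∈ Q` maps the
generator `b` to the generator `m b`. If `G ⧸ N` is in `C` then `G` is in `C`. For example `G` may be the
semidirect product of an Artin group of infinite rank and any group in `C` acting by diagram
automorphisms, such as the virtual Artin groups, where `N` has infinite rank.

The starting library has the theorem for Coxeter groups (`MP_63c928_gt.CoxeterKernels`), with other
means in the two steps which follow.

Outline of the proof. By the extension criterion and directed colimits it suffices to embed the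
subgroup generated by a finite set `E ⊆ N` and `g E g⁻¹` in a group in `C` in which the conjugation
by `g` on `E` is induced by an inner automorphism. Write `g = n m`. The finite partial automorphism
of `M` given by `m` extends to an automorphism `τ` of a larger finite matrix `M'` with labels in `L`
or infinity (Hrushovski's theorem). Standard parabolic subgroups embed (van der Lek), so one uses the
mapping torus of the automorphism of finite order of the Artin group of `M'` given by `τ`. The
Artin group of `M'` is in `C`: replace the label infinity by an element of `L` and erase these
relations again, one after the other. The group with `M s t` infinite is an amalgamated product of the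
parabolic subgroups without `s` and without `t`, on both of which the map to the group with
the additional relation is injective.
-/

set_option autoImplicit false

namespace Pool.Agent.Results.MP_63c928_gt.ArtinKernels

open Pool.Agent.Y110.FJ (ClosedE)
open Run7.h161.AK

/-- Let `C` have the closure properties `ClosedE C`, let `q` be even and let `L` be a nonempty set of
labels such that `C` contains the Artin groups (with the relations `s ^ q = 1`) of finite rank with
labels in `L`. Let `N` be a normal subgroup of `G` which is an Artin group of arbitrary rank with
labels in `L` or infinity, and let `G = N Q` where `Q` permutes the generators by conjugation and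
preserves the labels. If `G ⧸ N` is in `C` then `G` is in `C`. -/
theorem result (C : ∀ (G : Type) [Group G], Prop) (hC : ClosedE C) (q : ℕ) (hq : Even q)
    (L : Set ℕ) (hL : ∀ l ∈ L, 2 ≤ l) (hne : L.Nonempty)
    (hfin : ∀ (S : Type) (_ : Finite S) (A : CoxeterMatrix S), Labels A L → C (Art A q))
    (G B : Type) [Group G] (N Q : Subgroup G) [N.Normal] [MulAction Q B]
    (M : CoxeterMatrix B) (hM : Labels M (insert 0 L)) (e : Art M q ≃* N) (hNQ : N ⊔ Q = ⊤)
    (hQM : ∀ (m : Q) (b b' : B), M (m • b) (m • b') = M b b')
    (hconj : ∀ (m : Q) (b : B), (m : G) * (e (PresentedGroup.of b) : G) * (m : G)⁻¹ =
      (e (PresentedGroup.of (m • b)) : G))
    (hQ : C (G ⧸ N)) : C G :=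
  art_main e hC hq hL hne hfin (fun x y h => hM x y h) Q hNQ hQM hconj hQ

end Pool.Agent.Results.MP_63c928_gt.ArtinKernels
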