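import Pool.Agent.Run7.h909.TF.Fin

/-!
# Topological full groups of homeomorphisms with finitely many minimal sets, in A-theory

`C` is any class of groups with the closure properties `ClosedE C`, all of which are known for the
class of the groups whose wreath products with finite groups satisfy the Farrell-Jones conjecture for
`A`-theory with coefficients (Enkelmann-Lück-Pieper-Ullmann-Winges, On the Farrell-Jones conjecture for
Waldhausen's A-theory, Geom. Topol. 22 (2018)), and these groups satisfy the assertion of Q1. So Q1 holds
for all groups below.

This theorem of helper909 was first handed in for the K- and L-theoretic conjecture
(`MP_9d1ffa_al.TopologicalFullGroups`).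

(1) Let `D` be a virtually cyclic group which acts by homeomorphisms on a compact totally disconnected
Hausdorff space `X`, and suppose that there are only finitely many minimal closed invariant sets (the
action need not be minimal or free, and `X` need not be metrizable). Then the topological full group
`full D X`, the group of the permutations of `X` that are locally given by elements of `D`, is in
`C`. This applies to the topological full groups of all minimal homeomorphisms of the Cantor set; by
Matui and Juschenko-Monod the commutator subgroups of these are the first known finitely generated
infinite simple amenable groups.

(2) Let `G` be a group of permutations of `ℤ` of bounded displacement which is uniformly recurrent: for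
all finite subsets `S` of `G`, every pattern of displacements of the elements of `S` in a window occurs
again in all sufficiently long intervals. Then `G` is in `C`. (For example the groups of Nekrashevych
generated by fragmentations of minimal dihedral actions, whose orbital graphs are lines, act in this way.)

Outline of the proof. Let `A` be the Boolean algebra of the sets of integers given by patterns; all its
nonempty members have bounded gaps. For `U` in `A` with `0` in `U` cut `ℤ` into blocks at the elements of
`U`. The group `P U` of the permutations with pieces in `A` which preserve the blocks is locally
finite. It acts on the set `T U` of the transversals `V` in `A` (one element of `V` in each block). Let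
`G U` be the semidirect product with `P U` of the right-angled Artin group with generators `s_V`, `V` in
`T U`, where `s_V` and `s_W` commute if `V` and `W` are disjoint; it maps to the permutations of `ℤ`, where
`s_V` moves each element of `V` to the next one. For `U' ⊆ U` there is a homomorphism from `G U` to
`G U'`: `s_V` is mapped to `s_V' c`, where `V'` is the set of the first elements of `V` in the blocks
of `U'` and `c` is the permutation which preserves the blocks of `U'` such that `s_V = s_V' c` in the
permutations. If the blocks are very long then all patterns near the division points agree; so every
word over the generators of `G U` is mapped to a product of generators `s_(U' + j)`, `|j| ≤ R`, which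
commute with each other, and an element of `P U'`, and on such products the map to the permutations
is injective. Hence the group of all permutations with pieces in `A` is the directed colimit of the
groups `G U`. In (1) the elements which are trivial near the minimal sets form a locally finite normal
subgroup, and the quotient acts on the germs along the orbits of finitely many recurrent points.
-/

set_option autoImplicit false

namespace Pool.Agent.Results.MP_63c928_gt.TopologicalFullGroups

open Pool.Agent.Y110.FJ (ClosedE)
open Pool.Agent.R615.SC (full)
open Run7.h909.TF (MinSet)

theorem result {C : ∀ (G : Type) [Group G], Prop} (hC : ClosedE C) :
    (∀ (D X : Type) [Group D] [MulAction D X] [TopologicalSpace X] [ContinuousConstSMul D X]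
      [T2Space X] [CompactSpace X] [TotallyDisconnectedSpace X],
      (∃ c : D, (Subgroup.zpowers c).FiniteIndex) → {M : Set X | MinSet D M}.Finite →
        C ↥(full D X)) ∧
    (∀ (G : Type) [Group G] (ρ : G →* Equiv.Perm ℤ), Function.Injective ρ →
      (∀ g : G, ∃ r : ℤ, ∀ n, |ρ g n - n| ≤ r) →
      (∀ (S : Finset G) (R : ℕ) (m : ℤ), ∃ r : ℕ, ∀ n : ℤ, ∃ k : ℤ, n ≤ k ∧ k ≤ n + r ∧
        ∀ g ∈ S, ∀ j : ℤ, -R ≤ j → j ≤ R →
          ρ g (k + j) - (k + j) = ρ g (m + j) - (m + j)) → C G) :=
  ⟨fun _ _ _ _ _ _ _ _ _ hvc hfin => Run7.h909.TF.full_mem hC hvc hfin,
    fun G _ ρ hinj hbd hrec => Run7.h909.TF.ur_mem hC G ρ hinj hbd hrec⟩

end Pool.Agent.Results.MP_63c928_gt.TopologicalFullGroups
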